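import Mathlib

/-!
# A diagonalizable third Askey-Wilson element which does not give a Leonard triple

Over `ℚ` let `A = [-3, 4, -2; -2, 4, -1; 4, -4, 3]`, `A^ε = diag(0, 1, -1)` and `A* = A - A^ε`.
Then `A, A*` is a Leonard pair. Any two `3 × 3` matrices `B, C` satisfy the Askey-Wilson relations
with `β = -1` (this is the linearized Cayley-Hamilton theorem).
-/

set_option autoImplicit false
set_option linter.unusedSimpArgs false
set_option linter.unreachableTactic false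
set_option linter.unusedTactic false

namespace Pool.Agent.Results.MP_b3a6b1_al.DiagNotTriple

variable {K : Type*} [Field K] {V : Type*} [AddCommGroup V] [Module K V]

/-- A square matrix is irreducible tridiagonal: the entries `(i, j)` with `|i - j| > 1` are zero,
and the entries `(i, j)` with `|i - j| = 1` are nonzero. -/
def IsIrredTridiagonal {n : ℕ} (M : Matrix (Fin n) (Fin n) K) : Prop :=
  ∀ i j : Fin n, (((i : ℕ) + 1 < j ∨ (j : ℕ) + 1 < i) → M i j = 0) ∧
    (((i : ℕ) + 1 = j ∨ (j : ℕ) + 1 = i) → M i j ≠ 0)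

/-- `X, Y` is a Leonard pair on `V`. -/
def IsLeonardPair (X Y : Module.End K V) : Prop :=
  (∃ (n : ℕ) (b : Module.Basis (Fin n) K V), (LinearMap.toMatrix b b X).IsDiag ∧
      IsIrredTridiagonal (LinearMap.toMatrix b b Y)) ∧
    ∃ (n : ℕ) (b : Module.Basis (Fin n) K V), (LinearMap.toMatrix b b Y).IsDiag ∧
      IsIrredTridiagonal (LinearMap.toMatrix b b X)

/-- There is a single basis of `V` in which the matrix of `X` is diagonal and the matrices of `Y`
and `Z` are irreducible tridiagonal. -/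
def Diagonalizes (X Y Z : Module.End K V) : Prop :=
  ∃ (n : ℕ) (b : Module.Basis (Fin n) K V), (LinearMap.toMatrix b b X).IsDiag ∧
    IsIrredTridiagonal (LinearMap.toMatrix b b Y) ∧ IsIrredTridiagonal (LinearMap.toMatrix b b Z)

/-- `X, Y, Z` is a Leonard triple on `V`. -/
def IsLeonardTriple (X Y Z : Module.End K V) : Prop :=
  Diagonalizes X Y Z ∧ Diagonalizes Y Z X ∧ Diagonalizes Z X Y

/-- `B, C` satisfies the Askey-Wilson relations. -/
def SatisfiesAW (B C : Module.End K V) : Prop :=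
  ∃ β γ γs ρ ρs ω η ηs : K,
    B * B * C - β • (B * C * B) + C * B * B - γ • (B * C + C * B) - ρ • C =
      γs • (B * B) + ω • B + η • 1 ∧
    C * C * B - β • (C * B * C) + B * C * C - γs • (C * B + B * C) - ρs • B =
      γ • (C * C) + ω • C + ηs • 1

/-- `X` is diagonalizable. -/
def IsDiagonalizable (X : Module.End K V) : Prop :=
  ∃ (n : ℕ) (b : Module.Basis (Fin n) K V), (LinearMap.toMatrix b b X).IsDiag

/-- The conditions (i)-(iv) of the problem on `A, A*, A^ε`. -/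
structure IsThird (A As Aε : Module.End K V) : Prop where
  /-- (i) -/
  mem : Aε ∈ Submodule.span K {1, A, As, A * As, As * A}
  /-- (ii) -/
  mem_A : A ∈ Submodule.span K {1, As, Aε, As * Aε, Aε * As}
  /-- (iii) -/
  mem_As : As ∈ Submodule.span K {1, Aε, A, Aε * A, A * Aε}
  /-- (iv) for `A, A*` -/
  aw : SatisfiesAW A As
  /-- (iv) for `A*, A^ε` -/
  aw' : SatisfiesAW As Aε
  /-- (iv) for `A^ε, A` -/
  aw'' : SatisfiesAW Aε A

/-- The basis given by the columns of an invertible matrix. -/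
lemma exists_basis {n : ℕ} (P Q : Matrix (Fin n) (Fin n) K) (h : Q * P = 1) :
    ∃ b : Module.Basis (Fin n) K (Fin n → K), ∀ M : Matrix (Fin n) (Fin n) K,
      LinearMap.toMatrix b b M.mulVecLin = Q * M * P := by
  have h' : P * Q = 1 := mul_eq_one_comm.1 h
  let e : (Fin n → K) ≃ₗ[K] (Fin n → K) := Matrix.toLin'OfInv h h'
  refine ⟨(Pi.basisFun K (Fin n)).map e, fun M => ?_⟩
  ext i j
  rw [LinearMap.toMatrix_apply]
  have h1 : ((Pi.basisFun K (Fin n)).map e) j = P.mulVec (Pi.single j 1) := by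
    rw [Module.Basis.map_apply, Pi.basisFun_apply, ← Matrix.toLin'_apply]
    rfl
  have h2 : ∀ v, ((Pi.basisFun K (Fin n)).map e).repr v i = (Q.mulVec v) i := by
    intro v
    rw [← Matrix.toLin'_apply]
    rfl
  rw [h1, h2, Matrix.mulVecLin_apply, Matrix.mulVec_mulVec, Matrix.mulVec_mulVec,
    Matrix.mulVec_single_one, Matrix.mul_assoc]
  rfl

/-- `A` -/
def mX : Matrix (Fin 3) (Fin 3) ℚ := !![-3, 4, -2; -2, 4, -1; 4, -4, 3]

/-- `A*` -/
def mY : Matrix (Fin 3) (Fin 3) ℚ := !![-3, 4, -2; -2, 3, -1; 4, -4, 4]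

/-- `A^ε = diag(0, 1, -1)` -/
def mZ : Matrix (Fin 3) (Fin 3) ℚ := !![0, 0, 0; 0, 1, 0; 0, 0, -1]

/-- A criterion for irreducible tridiagonal `3 × 3` matrices. -/
lemma irred_of_eq {M : Matrix (Fin 3) (Fin 3) ℚ} {a b c d e f g : ℚ}
    (h : M = !![a, b, 0; c, d, e; 0, f, g]) (hb : b ≠ 0) (hc : c ≠ 0) (he : e ≠ 0) (hf : f ≠ 0) :
    IsIrredTridiagonal M := by
  subst h
  intro i j
  fin_cases i <;> fin_cases j <;> simp [hb, hc, he, hf]

/-- A criterion for diagonal `3 × 3` matrices. -/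
lemma diag_of_eq {M : Matrix (Fin 3) (Fin 3) ℚ} {a b c : ℚ}
    (h : M = !![a, 0, 0; 0, b, 0; 0, 0, c]) : M.IsDiag := by
  subst h
  intro i j hij
  fin_cases i <;> fin_cases j <;> simp at hij ⊢

/-- One half of the definition of Leonard pairs, from a matrix. -/
lemma half {X Y P Q : Matrix (Fin 3) (Fin 3) ℚ} (h : Q * P = 1) {a b c : ℚ}
    (hX : Q * X * P = !![a, 0, 0; 0, b, 0; 0, 0, c]) {a' b' c' d e f g : ℚ}
    (hY : Q * Y * P = !![a', b', 0; c', d, e; 0, f, g]) (hb : b' ≠ 0) (hc : c' ≠ 0) (he : e ≠ 0)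
    (hf : f ≠ 0) :
    ∃ (n : ℕ) (b : Module.Basis (Fin n) ℚ (Fin 3 → ℚ)), (LinearMap.toMatrix b b X.mulVecLin).IsDiag ∧
      IsIrredTridiagonal (LinearMap.toMatrix b b Y.mulVecLin) := by
  obtain ⟨b, hb'⟩ := exists_basis P Q h
  refine ⟨3, b, ?_, ?_⟩
  · rw [hb']
    exact diag_of_eq hX
  · rw [hb']
    exact irred_of_eq hY hb hc he hf

lemma pairXY : IsLeonardPair (mX.mulVecLin) (mY.mulVecLin) := by
  constructor
  · refine half (P := !![4, 1, -1; 1, 0, -1; -4, -2, 1])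
      (Q := !![2/3, -1/3, 1/3; -1, 0, -1; 2/3, -4/3, 1/3])
      (a := 0) (b := 1) (c := 3) (a' := -1) (b' := -2/3) (c' := 4) (d := 3) (e := -1)
      (f := -2/3) (g := 2) ?_ ?_ ?_ ?_ ?_ ?_ ?_ <;>
    first
      | (ext i j; fin_cases i <;> fin_cases j <;>
          simp [mX, mY, mZ, Matrix.mul_apply, Fin.sum_univ_three] <;> norm_num)
      | norm_num
  · refine half (P := !![-2, 1, 2; -1, 1, 1; 4, 0, -1])
      (Q := !![1/3, -1/3, 1/3; -1, 2, 0; 4/3, -4/3, 1/3])
      (a := 3) (b := 1) (c := 0) (a' := 2) (b' := -1/3) (c' := -2) (d := 3) (e := 2)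
      (f := -4/3) (g := -1) ?_ ?_ ?_ ?_ ?_ ?_ ?_ <;>
    first
      | (ext i j; fin_cases i <;> fin_cases j <;>
          simp [mX, mY, mZ, Matrix.mul_apply, Fin.sum_univ_three] <;> norm_num)
      | norm_num

/-- The Askey-Wilson relations, from matrices. -/
lemma aw_of {B C : Matrix (Fin 3) (Fin 3) ℚ} (γ γs ρ ρs ω η ηs : ℚ)
    (h : B * B * C + B * C * B + C * B * B =
      γ • (B * C + C * B) + ρ • C + γs • (B * B) + ω • B + η • 1)
    (h' : C * C * B + C * B * C + B * C * C =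
      γs • (C * B + B * C) + ρs • B + γ • (C * C) + ω • C + ηs • 1) :
    SatisfiesAW (B.mulVecLin) (C.mulVecLin) := by
  have key : ∀ M : Matrix (Fin 3) (Fin 3) ℚ, M.mulVecLin = Matrix.toLinAlgEquiv' M := fun _ => rfl
  rw [key, key]
  refine ⟨-1, γ, γs, ρ, ρs, ω, η, ηs, ?_, ?_⟩
  · have h1 := congrArg Matrix.toLinAlgEquiv' h
    simp only [map_add, map_mul, map_smul, map_one] at h1
    linear_combination (norm := module) h1
  · have h1 := congrArg Matrix.toLinAlgEquiv' h'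
    simp only [map_add, map_mul, map_smul, map_one] at h1
    linear_combination (norm := module) h1

lemma awXY : SatisfiesAW (mX.mulVecLin) (mY.mulVecLin) := by
  refine aw_of 4 4 (-3) (-3) (-7) (-3) (-3) ?_ ?_ <;>
  (ext i j; fin_cases i <;> fin_cases j <;>
          simp [mX, mY, mZ, Matrix.mul_apply, Fin.sum_univ_three] <;> norm_num)

lemma awYZ : SatisfiesAW (mY.mulVecLin) (mZ.mulVecLin) := by
  refine aw_of 4 0 (-3) 1 (-1) (-3) 3 ?_ ?_ <;>
  (ext i j; fin_cases i <;> fin_cases j <;>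
          simp [mX, mY, mZ, Matrix.mul_apply, Fin.sum_univ_three] <;> norm_num)

lemma awZX : SatisfiesAW (mZ.mulVecLin) (mX.mulVecLin) := by
  refine aw_of 0 4 1 (-3) 1 3 3 ?_ ?_ <;>
  (ext i j; fin_cases i <;> fin_cases j <;>
          simp [mX, mY, mZ, Matrix.mul_apply, Fin.sum_univ_three] <;> norm_num)

lemma sub_eq : mX.mulVecLin = mY.mulVecLin + mZ.mulVecLin := by
  rw [← Matrix.mulVecLin_add]
  congr 1
  ext i j
  fin_cases i <;> fin_cases j <;> simp [mX, mY, mZ] <;> norm_num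

lemma third : IsThird (mX.mulVecLin) (mY.mulVecLin) (mZ.mulVecLin) := by
  refine ⟨?_, ?_, ?_, awXY, awYZ, awZX⟩
  · have h : mZ.mulVecLin = mX.mulVecLin - mY.mulVecLin := by rw [sub_eq, add_sub_cancel_left]
    rw [h]
    exact Submodule.sub_mem _ (Submodule.subset_span (by simp)) (Submodule.subset_span (by simp))
  · rw [sub_eq]
    exact Submodule.add_mem _ (Submodule.subset_span (by simp)) (Submodule.subset_span (by simp))
  · have h : mY.mulVecLin = mX.mulVecLin - mZ.mulVecLin := by rw [sub_eq, add_sub_cancel_right]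
    rw [h]
    exact Submodule.sub_mem _ (Submodule.subset_span (by simp)) (Submodule.subset_span (by simp))

lemma diagZ : IsDiagonalizable (mZ.mulVecLin) := by
  obtain ⟨b, hb⟩ := exists_basis (K := ℚ) (1 : Matrix (Fin 3) (Fin 3) ℚ) 1 (by simp)
  refine ⟨3, b, ?_⟩
  rw [hb, one_mul, mul_one]
  exact diag_of_eq rfl

lemma one_nonzero {a b c t : ℚ} (h0 : a * t = 0) (h1 : b * (1 - t) = 0) (h2 : c * (-1 - t) = 0)
    (h : ¬ (a = 0 ∧ b = 0 ∧ c = 0)) : (a ≠ 0 ∧ b = 0 ∧ c = 0) ∨ (a = 0 ∧ b ≠ 0 ∧ c = 0) ∨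
      (a = 0 ∧ b = 0 ∧ c ≠ 0) := by
  rcases mul_eq_zero.1 h0 with h0 | h0 <;> rcases mul_eq_zero.1 h1 with h1 | h1 <;>
    rcases mul_eq_zero.1 h2 with h2 | h2
  · exact absurd ⟨h0, h1, h2⟩ h
  · exact Or.inr (Or.inr ⟨h0, h1, fun h3 => h ⟨h0, h1, h3⟩⟩)
  · exact Or.inr (Or.inl ⟨h0, fun h3 => h ⟨h0, h3, h2⟩, h2⟩)
  · linarith
  · exact Or.inl ⟨fun h3 => h ⟨h3, h1, h2⟩, h1, h2⟩
  · linarith
  · linarith
  · linarith

/-- No basis diagonalises `A^ε` and makes `A` irreducible tridiagonal. -/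
lemma not_diagonalizes (Y : Module.End ℚ (Fin 3 → ℚ)) :
    ¬ Diagonalizes (mZ.mulVecLin) (mX.mulVecLin) Y := by
  rintro ⟨n, b, hX, hY, -⟩
  have hn : n = 3 := by
    have := Module.finrank_eq_card_basis b
    simpa using this.symm
  subst hn
  set φ := b.coord 0 with hφ
  set ξ := LinearMap.toMatrix b b mZ.mulVecLin 0 0 with hξ
  set ξ' := LinearMap.toMatrix b b mZ.mulVecLin 2 2 with hξ'
  have hφX : ∀ v, φ (mZ.mulVec v) = ξ * φ v := by
    intro v
    have h1 := congrFun (LinearMap.toMatrix_mulVec_repr b b mZ.mulVecLin v) 0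
    rw [Matrix.mulVec, dotProduct, Fin.sum_univ_three, hX (show (0 : Fin 3) ≠ 1 by decide),
      hX (show (0 : Fin 3) ≠ 2 by decide), zero_mul, zero_mul, add_zero, add_zero] at h1
    exact h1.symm
  have hbX : mZ.mulVec (b 2) = ξ' • b 2 := by
    have h1 := b.sum_repr (mZ.mulVecLin (b 2))
    rw [Fin.sum_univ_three] at h1
    have e0 : b.repr (mZ.mulVecLin (b 2)) 0 = 0 := by
      rw [← LinearMap.toMatrix_apply]
      exact hX (show (0 : Fin 3) ≠ 2 by decide)
    have e1 : b.repr (mZ.mulVecLin (b 2)) 1 = 0 := by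
      rw [← LinearMap.toMatrix_apply]
      exact hX (show (1 : Fin 3) ≠ 2 by decide)
    have e2 : b.repr (mZ.mulVecLin (b 2)) 2 = ξ' := by
      rw [← LinearMap.toMatrix_apply]
    rw [e0, e1, e2, zero_smul, zero_smul, zero_add, zero_add] at h1
    exact h1.symm
  have hφY : φ (mX.mulVec (b 2)) = 0 := by
    have h1 := (hY 0 2).1 (Or.inl (by decide))
    rwa [LinearMap.toMatrix_apply] at h1
  have hφb : φ (b 2) = 0 := by
    rw [hφ, Module.Basis.coord_apply, Module.Basis.repr_self, Finsupp.single_apply,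
      if_neg (by decide)]
  have hφ0 : φ (b 0) = 1 := by
    rw [hφ, Module.Basis.coord_apply, Module.Basis.repr_self, Finsupp.single_apply, if_pos rfl]
  -- coordinates
  set c : Fin 3 → ℚ := fun k => φ (Pi.single k 1) with hc
  have hexp : ∀ v : Fin 3 → ℚ, φ v = v 0 * c 0 + v 1 * c 1 + v 2 * c 2 := by
    intro v
    have h1 : v = v 0 • Pi.single 0 1 + v 1 • Pi.single 1 1 + v 2 • Pi.single 2 1 := by
      ext k
      fin_cases k <;> simp
    conv_lhs => rw [h1]
    rw [map_add, map_add, map_smul, map_smul, map_smul]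
    rfl
  set d := b 2 with hd
  have hc0 := hφX (Pi.single 0 1)
  have hc1 := hφX (Pi.single 1 1)
  have hc2 := hφX (Pi.single 2 1)
  have hd0 := congrFun hbX 0
  have hd1 := congrFun hbX 1
  have hd2 := congrFun hbX 2
  rw [hexp] at hφY hφb
  rw [hexp, hexp (Pi.single _ _)] at hc0 hc1 hc2
  simp [mX, mY, mZ, Matrix.mulVec, dotProduct, Fin.sum_univ_three] at hφY hφb hc0 hc1 hc2 hd0 hd1 hd2
  have hcne : ¬ (c 0 = 0 ∧ c 1 = 0 ∧ c 2 = 0) := by
    rintro ⟨h0, h1, h2⟩
    rw [hexp, h0, h1, h2] at hφ0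
    simp at hφ0
  have hdne : ¬ (d 0 = 0 ∧ d 1 = 0 ∧ d 2 = 0) := by
    rintro ⟨h0, h1, h2⟩
    apply b.ne_zero 2
    rw [← hd]
    ext k
    fin_cases k
    exacts [h0, h1, h2]
  have hC := one_nonzero (a := c 0) (b := c 1) (c := c 2) (t := ξ)
    (by rcases hc0 with h | h <;> rw [h] <;> ring) (by linear_combination hc1)
    (by linear_combination hc2) hcne
  have hD := one_nonzero (a := d 0) (b := d 1) (c := d 2) (t := ξ')
    (by rcases hd0 with h | h <;> rw [h] <;> ring) (by linear_combination hd1)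
    (by linear_combination hd2) hdne
  rcases hC with ⟨a1, a2, a3⟩ | ⟨a1, a2, a3⟩ | ⟨a1, a2, a3⟩ <;>
    rcases hD with ⟨b1, b2, b3⟩ | ⟨b1, b2, b3⟩ | ⟨b1, b2, b3⟩
  · rw [a2, a3, b2, b3] at hφb
    exact mul_ne_zero b1 a1 (by linear_combination hφb)
  · rw [a2, a3, b1, b3] at hφY
    exact mul_ne_zero b2 a1 (by linear_combination hφY / 4)
  · rw [a2, a3, b1, b2] at hφY
    exact mul_ne_zero b3 a1 (by linear_combination -hφY / 2)
  · rw [a1, a3, b2, b3] at hφY
    exact mul_ne_zero b1 a2 (by linear_combination -hφY / 2)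
  · rw [a1, a3, b1, b3] at hφb
    exact mul_ne_zero b2 a2 (by linear_combination hφb)
  · rw [a1, a3, b1, b2] at hφY
    exact mul_ne_zero b3 a2 (by linear_combination -hφY)
  · rw [a1, a2, b2, b3] at hφY
    exact mul_ne_zero b1 a3 (by linear_combination hφY / 4)
  · rw [a1, a2, b1, b3] at hφY
    exact mul_ne_zero b2 a3 (by linear_combination -hφY / 4)
  · rw [a1, a2, b1, b2] at hφb
    exact mul_ne_zero b3 a3 (by linear_combination hφb)

/-- There are a Leonard pair `A, A*` on `ℚ³` and a linear map `A^ε` which satisfies the conditions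
(i)-(iv) and is diagonalizable, although `A, A*, A^ε` is not a Leonard triple. -/
theorem result : ∃ A As Aε : Module.End ℚ (Fin 3 → ℚ),
    IsLeonardPair A As ∧ IsThird A As Aε ∧ IsDiagonalizable Aε ∧ ¬ IsLeonardTriple A As Aε :=
  ⟨mX.mulVecLin, mY.mulVecLin, mZ.mulVecLin, pairXY, third, diagZ,
    fun h => not_diagonalizes _ h.2.2⟩

end Pool.Agent.Results.MP_b3a6b1_al.DiagNotTriple
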